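import Mathlib
import Pool.Agent.H211.HY.Stm1
import Pool.Graph.R_seed8.H790R3.RB.TWR

/-!
# The derivatives along the critical orbits and the variation series, in the charts
-/

set_option autoImplicit false

open Topology Filter Metric Set MeasureTheory Polynomial

namespace Pool.Agent.H729.HY211

open Pool.Agent.H790R3.RB Pool.Agent.H211.HY

theorem tau_true {p : ℂ × ℂ} (h : ‖p.1‖ ≤ ‖p.2‖) : tau p = true := by
  unfold tau
  exact decide_eq_true h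

theorem tau_false {p : ℂ × ℂ} (h : ¬ ‖p.1‖ ≤ ‖p.2‖) : tau p = false := by
  unfold tau
  exact decide_eq_false h

theorem dn_ne {p : ℂ × ℂ} (hp : p ≠ 0) : dn (tau p) p ≠ 0 := by
  by_cases h : ‖p.1‖ ≤ ‖p.2‖
  · rw [tau_true h]
    intro h0
    have h2 : p.2 = 0 := by simpa [dn] using h0
    apply hp
    rw [h2, norm_zero] at h
    exact Prod.ext (norm_le_zero_iff.mp h) h2
  · rw [tau_false h]
    intro h0
    have h1 : p.1 = 0 := by simpa [dn] using h0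
    apply h
    rw [h1, norm_zero]
    exact norm_nonneg _

theorem eq_dn_smul {p : ℂ × ℂ} (hp : p ≠ 0) : p = dn (tau p) p • iot (tau p) (zc p) := by
  have h0 := dn_ne hp
  unfold zc
  by_cases h : ‖p.1‖ ≤ ‖p.2‖
  · rw [tau_true h] at h0 ⊢
    have h2 : p.2 ≠ 0 := by simpa [dn] using h0
    apply Prod.ext
    · simp only [dn, iot, lc, if_true, Prod.smul_fst, smul_eq_mul]
      field_simp
    · simp only [dn, iot, lc, if_true, Prod.smul_snd, smul_eq_mul, mul_one]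
  · rw [tau_false h] at h0 ⊢
    have h2 : p.1 ≠ 0 := by simpa [dn] using h0
    apply Prod.ext
    · simp [dn, iot, lc]
    · simp only [dn, iot, lc, Bool.false_eq_true, if_false, Prod.smul_snd, smul_eq_mul]
      field_simp

theorem dn_smul (τ : Bool) (a : ℂ) (p : ℂ × ℂ) : dn τ (a • p) = a * dn τ p := by
  cases τ <;> simp [dn]

theorem sg_mul (τ : Bool) : sg τ * sg τ = 1 := by
  cases τ <;> simp [sg]

theorem sg_ne (τ : Bool) : sg τ ≠ 0 := by
  cases τ <;> simp [sg]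

theorem norm_sg (τ : Bool) : ‖sg τ‖ = 1 := by
  cases τ <;> simp [sg]

theorem N2_le (p : ℂ × ℂ) : N2 p ≤ 2 * ‖dn (tau p) p‖ ^ 2 := by
  unfold N2
  by_cases h : ‖p.1‖ ≤ ‖p.2‖
  · rw [tau_true h]
    have h1 : dn true p = p.2 := by simp [dn]
    rw [h1]
    have := pow_le_pow_left₀ (norm_nonneg p.1) h 2
    linarith
  · rw [tau_false h]
    have h1 : dn false p = p.1 := by simp [dn]
    rw [h1]
    have := pow_le_pow_left₀ (norm_nonneg p.2) (not_le.mp h).le 2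
    linarith

theorem le_N2 (τ : Bool) (p : ℂ × ℂ) : ‖dn τ p‖ ^ 2 ≤ N2 p := by
  unfold N2
  cases τ
  · have h1 : dn false p = p.1 := by simp [dn]
    rw [h1]
    nlinarith [sq_nonneg ‖p.2‖]
  · have h1 : dn true p = p.2 := by simp [dn]
    rw [h1]
    nlinarith [sq_nonneg ‖p.1‖]

theorem N2_pos {p : ℂ × ℂ} (hp : p ≠ 0) : 0 < N2 p :=
  lt_of_lt_of_le (pow_pos (norm_pos_iff.mpr (dn_ne hp)) 2) (le_N2 (tau p) p)

theorem norm_sq_le_N2 (p : ℂ × ℂ) : ‖p‖ ^ 2 ≤ N2 p := by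
  unfold N2
  rw [Prod.norm_def]
  rcases le_total ‖p.1‖ ‖p.2‖ with h | h
  · rw [max_eq_right h]
    nlinarith [sq_nonneg ‖p.1‖]
  · rw [max_eq_left h]
    nlinarith [sq_nonneg ‖p.2‖]

theorem norm_cr_le (p q : ℂ × ℂ) : ‖cr p q‖ ≤ 2 * (‖p‖ * ‖q‖) := by
  unfold cr
  have h1 : ‖p.1 * q.2‖ ≤ ‖p‖ * ‖q‖ := by
    rw [norm_mul]
    exact mul_le_mul (norm_fst_le p) (norm_snd_le q) (norm_nonneg _) (norm_nonneg _)
  have h2 : ‖p.2 * q.1‖ ≤ ‖p‖ * ‖q‖ := by
    rw [norm_mul]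
    exact mul_le_mul (norm_snd_le p) (norm_fst_le q) (norm_nonneg _) (norm_nonneg _)
  have h3 := norm_sub_le (p.1 * q.2) (p.2 * q.1)
  linarith

section orbit

variable {d : ℕ} (x : CV d) (c : ℂ)

theorem qo_succ (n : ℕ) : qo x c (n + 1) = hF x (qo x c n) := by
  unfold qo
  rw [Function.iterate_succ_apply']

theorem qo_ne (h : ND x) (n : ℕ) : qo x c n ≠ 0 := by
  unfold qo
  apply h.iter_ne
  intro h0
  have := congrArg Prod.snd h0
  simp at this

/-- the denominators along the orbit -/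
noncomputable def T (n : ℕ) : ℂ := dn (tau (qo x c (n + 1))) (qo x c (n + 1))

theorem T_ne (h : ND x) (n : ℕ) : T x c n ≠ 0 := dn_ne (qo_ne x c h (n + 1))

theorem qo_eq (h : ND x) (n : ℕ) : qo x c (n + 1) =
    T x c n • iot (tau (qo x c (n + 1))) (zc (qo x c (n + 1))) :=
  eq_dn_smul (qo_ne x c h (n + 1))

theorem T_succ (h : ND x) (n : ℕ) : T x c (n + 1) = T x c n ^ d *
    dn (tau (qo x c (n + 2))) (hF x (iot (tau (qo x c (n + 1))) (zc (qo x c (n + 1))))) := by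
  have h1 : T x c (n + 1) = dn (tau (qo x c (n + 2))) (hF x (qo x c (n + 1))) := by
    unfold T
    rw [show n + 1 + 1 = n + 2 from rfl, ← qo_succ x c (n + 1)]
  have h2 : hF x (qo x c (n + 1)) =
      T x c n ^ d • hF x (iot (tau (qo x c (n + 1))) (zc (qo x c (n + 1)))) := by
    rw [← hF_smul, ← qo_eq x c h n]
  rw [h1, h2, dn_smul]

theorem dn_hF_ne (h : ND x) (n : ℕ) :
    dn (tau (qo x c (n + 2))) (hF x (iot (tau (qo x c (n + 1))) (zc (qo x c (n + 1))))) ≠ 0 := by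
  intro h0
  have := T_succ x c h n
  rw [h0, mul_zero] at this
  exact T_ne x c h (n + 1) this

theorem Lam_succ (n : ℕ) :
    Lam x c (n + 1) = Lam x c n * (wr x (qo x c (n + 1)) / (d : ℂ)) := by
  unfold Lam
  rw [Finset.prod_range_succ]

theorem iter_hF (n : ℕ) : (hF x)^[n] (hF x (c, 1)) = qo x c (n + 1) := by
  unfold qo
  rw [Function.iterate_succ_apply]

theorem sdn_Lam (hd : 2 ≤ d) (h : ND x) (n : ℕ) :
    sdn x n (hF x (c, 1)) * N2 (qo x c (n + 1)) = ‖Lam x c n‖ * N2 (qo x c 1) := by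
  induction n with
  | zero => simp [sdn, Lam]
  | succ n ih =>
    have h1 : sdn x (n + 1) (hF x (c, 1)) =
        sdn x n (hF x (c, 1)) * sd x (qo x c (n + 1)) := by
      unfold sdn
      rw [Finset.prod_range_succ, iter_hF]
    have h2 : 0 < N2 (qo x c (n + 1 + 1)) := N2_pos (qo_ne x c h _)
    have hd0 : (0 : ℝ) < d := by exact_mod_cast (by omega : 0 < d)
    have h3 : ‖Lam x c (n + 1)‖ = ‖Lam x c n‖ * (‖wr x (qo x c (n + 1))‖ / d) := by
      rw [Lam_succ, norm_mul, norm_div, Complex.norm_natCast]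
    have h4 : sd x (qo x c (n + 1)) * N2 (qo x c (n + 1 + 1)) =
        N2 (qo x c (n + 1)) * (‖wr x (qo x c (n + 1))‖ / d) := by
      unfold sd
      rw [← qo_succ x c (n + 1)]
      field_simp
    rw [h1, h3, mul_assoc, h4, ← mul_assoc, ih]
    ring

/-- derivative of the chart map along the orbit -/
theorem deriv_orbit (hDER : S_DER) (hd : 2 ≤ d) (h : ND x) (n : ℕ) :
    deriv (GG x (tau (qo x c (n + 1))) (tau (qo x c (n + 2)))) (zc (qo x c (n + 1))) =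
      sg (tau (qo x c (n + 1))) * sg (tau (qo x c (n + 2))) *
        (T x c n ^ 2 / T x c (n + 1) ^ 2) * (wr x (qo x c (n + 1)) / (d : ℂ)) := by
  have h1 := ((hDER d 0 (tau (qo x c (n + 1))) (tau (qo x c (n + 2))) (zc (qo x c (n + 1))) hd).1 x
    (dn_hF_ne x c h n)).deriv
  rw [h1]
  have hw : wr x (qo x c (n + 1)) = T x c n ^ (2 * d - 2) *
      wr x (iot (tau (qo x c (n + 1))) (zc (qo x c (n + 1)))) := by
    rw [← (WR d x hd).1, ← qo_eq x c h n]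
  have hT := T_succ x c h n
  have hT0 := T_ne x c h n
  have hD0 := dn_hF_ne x c h n
  have hd0 : (d : ℂ) ≠ 0 := by
    exact_mod_cast (by omega : d ≠ 0)
  have hp : T x c n ^ (2 * d - 2) * T x c n ^ 2 = (T x c n ^ d) ^ 2 := by
    rw [← pow_add, ← pow_mul]
    have he : 2 * d - 2 + 2 = d * 2 := by omega
    rw [he]
  rw [hw, hT]
  generalize dn (tau (qo x c (n + 2)))
    (hF x (iot (tau (qo x c (n + 1))) (zc (qo x c (n + 1))))) = D at *
  generalize wr x (iot (tau (qo x c (n + 1))) (zc (qo x c (n + 1)))) = W at *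
  have hTd : T x c n ^ d ≠ 0 := pow_ne_zero _ hT0
  have h5 : T x c n ^ 2 / (T x c n ^ d * D) ^ 2 * (T x c n ^ (2 * d - 2) * W / (d : ℂ)) =
      W / ((d : ℂ) * D ^ 2) := by
    have h6 : T x c n ^ 2 / (T x c n ^ d * D) ^ 2 * (T x c n ^ (2 * d - 2) * W / (d : ℂ)) =
        (T x c n ^ (2 * d - 2) * T x c n ^ 2) * W / ((T x c n ^ d) ^ 2 * ((d : ℂ) * D ^ 2)) := by
      field_simp
    rw [h6, hp]
    have h7 : (T x c n ^ d) ^ 2 ≠ 0 := pow_ne_zero _ hTd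
    field_simp
  have h8 : sg (tau (qo x c (n + 1))) * sg (tau (qo x c (n + 2))) * W / ((d : ℂ) * D ^ 2) =
      sg (tau (qo x c (n + 1))) * sg (tau (qo x c (n + 2))) * (W / ((d : ℂ) * D ^ 2)) := by
    ring
  rw [h8, ← h5]
  ring

/-- lower bound for the homogeneous map -/
theorem exists_lower (hd : 2 ≤ d) (h : ND x) : ∃ a > (0 : ℝ), ∀ p : ℂ × ℂ,
    a * ‖p‖ ^ d ≤ ‖hF x p‖ := by
  have hcont : Continuous (fun p : ℂ × ℂ => ‖hF x p‖) := by
    have h1 := hF_iter_continuous d 1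
    have h2 : Continuous (fun p : ℂ × ℂ => (hF x)^[1] p) :=
      h1.comp (Continuous.prodMk continuous_const continuous_id)
    have h3 : (fun p : ℂ × ℂ => ‖hF x p‖) = fun p : ℂ × ℂ => ‖(hF x)^[1] p‖ := by
      funext p
      simp
    rw [h3]
    exact h2.norm
  obtain ⟨q, hq, hmin⟩ := (isCompact_sphere (0 : ℂ × ℂ) 1).exists_isMinOn
    ⟨((1 : ℂ), (0 : ℂ)), by simp [Prod.norm_def]⟩ hcont.continuousOn
  have hq1 : ‖q‖ = 1 := by simpa using hq
  have hq0 : q ≠ 0 := by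
    intro h0
    rw [h0, norm_zero] at hq1
    exact zero_ne_one hq1
  have hpos : 0 < ‖hF x q‖ := norm_pos_iff.mpr (fun h0 => hq0 (h q h0))
  refine ⟨‖hF x q‖, hpos, fun p => ?_⟩
  by_cases hp : p = 0
  · have hd0 : d ≠ 0 := by omega
    rw [hp, norm_zero, zero_pow hd0, mul_zero]
    exact norm_nonneg _
  · have hn : 0 < ‖p‖ := norm_pos_iff.mpr hp
    have hnc : ((‖p‖ : ℝ) : ℂ) ≠ 0 := by exact_mod_cast hn.ne'
    set u : ℂ × ℂ := ((‖p‖ : ℝ) : ℂ)⁻¹ • p with hu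
    have hpu : p = ((‖p‖ : ℝ) : ℂ) • u := by
      rw [hu, smul_smul, mul_inv_cancel₀ hnc, one_smul]
    have hun : ‖u‖ = 1 := by
      rw [hu, norm_smul, norm_inv, Complex.norm_real, norm_norm, inv_mul_cancel₀ hn.ne']
    have h4 : ‖hF x q‖ ≤ ‖hF x u‖ := hmin (by simpa using hun)
    have h5 : ‖hF x p‖ = ‖p‖ ^ d * ‖hF x u‖ := by
      conv_lhs => rw [hpu]
      rw [hF_smul, norm_smul, norm_pow, Complex.norm_real, norm_norm]
    rw [h5, mul_comm]
    exact mul_le_mul_of_nonneg_left h4 (by positivity)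

theorem exists_upper (b : CV d) : ∃ K : ℝ, 0 ≤ K ∧ ∀ p : ℂ × ℂ, ‖hF b p‖ ≤ K * ‖p‖ ^ d := by
  have hco : ∀ (e : Fin (d + 1) → ℂ) (p : ℂ × ℂ),
      ‖∑ j : Fin (d + 1), e j * (p.1 ^ (j : ℕ) * p.2 ^ (d - (j : ℕ)))‖ ≤
        (∑ j : Fin (d + 1), ‖e j‖) * ‖p‖ ^ d := by
    intro e p
    rw [Finset.sum_mul]
    refine (norm_sum_le _ _).trans (Finset.sum_le_sum fun j _ => ?_)
    rw [norm_mul, norm_mul, norm_pow, norm_pow]
    have h1 : ‖p.1‖ ^ (j : ℕ) * ‖p.2‖ ^ (d - (j : ℕ)) ≤ ‖p‖ ^ d := by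
      have h2 : ‖p‖ ^ d = ‖p‖ ^ (j : ℕ) * ‖p‖ ^ (d - (j : ℕ)) := by
        rw [← pow_add]
        have := j.2
        have he : (j : ℕ) + (d - (j : ℕ)) = d := by omega
        rw [he]
      rw [h2]
      exact mul_le_mul (pow_le_pow_left₀ (norm_nonneg _) (norm_fst_le p) _)
        (pow_le_pow_left₀ (norm_nonneg _) (norm_snd_le p) _) (by positivity) (by positivity)
    exact mul_le_mul_of_nonneg_left h1 (norm_nonneg _)
  refine ⟨(∑ j : Fin (d + 1), ‖b (0, j)‖) + ∑ j : Fin (d + 1), ‖b (1, j)‖, by positivity,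
    fun p => ?_⟩
  have h1 := hco (fun j => b (0, j)) p
  have h2 := hco (fun j => b (1, j)) p
  have h3 : 0 ≤ (∑ j : Fin (d + 1), ‖b (0, j)‖) * ‖p‖ ^ d := by positivity
  have h4 : 0 ≤ (∑ j : Fin (d + 1), ‖b (1, j)‖) * ‖p‖ ^ d := by positivity
  rw [Prod.norm_def]
  refine max_le ?_ ?_
  · have h5 : ‖(hF b p).1‖ ≤ (∑ j : Fin (d + 1), ‖b (0, j)‖) * ‖p‖ ^ d := h1
    linarith [add_mul (∑ j : Fin (d + 1), ‖b (0, j)‖) (∑ j : Fin (d + 1), ‖b (1, j)‖) (‖p‖ ^ d)]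
  · have h5 : ‖(hF b p).2‖ ≤ (∑ j : Fin (d + 1), ‖b (1, j)‖) * ‖p‖ ^ d := h2
    linarith [add_mul (∑ j : Fin (d + 1), ‖b (0, j)‖) (∑ j : Fin (d + 1), ‖b (1, j)‖) (‖p‖ ^ d)]

theorem Lam_ne (hd : 2 ≤ d) (h : ND x) {C μ : ℝ} (hC : 0 < C) (hμ : 1 < μ)
    (hg : ∀ n : ℕ, C * μ ^ n ≤ sdn x n (hF x (c, 1))) (n : ℕ) : Lam x c n ≠ 0 := by
  intro h0
  have h1 := sdn_Lam x c hd h n
  rw [h0, norm_zero, zero_mul] at h1
  have h2 : 0 < N2 (qo x c (n + 1)) := N2_pos (qo_ne x c h _)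
  have h3 : 0 < sdn x n (hF x (c, 1)) := lt_of_lt_of_le (by positivity) (hg n)
  exact absurd h1 (mul_pos h3 h2).ne'

theorem summable_hst (hd : 2 ≤ d) (h : ND x) {C μ : ℝ} (hC : 0 < C) (hμ : 1 < μ)
    (hg : ∀ n : ℕ, C * μ ^ n ≤ sdn x n (hF x (c, 1))) (b : CV d) : Summable (hst x c b) := by
  obtain ⟨a, ha, hlow⟩ := exists_lower x hd h
  obtain ⟨K, hK, hup⟩ := exists_upper b
  have hN : 0 < N2 (qo x c 1) := N2_pos (qo_ne x c h 1)
  have hμ0 : 0 < μ := by linarith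
  have hgeo : Summable (fun n : ℕ => (2 * (K / a) * N2 (qo x c 1) / C) * (μ⁻¹) ^ n) :=
    (summable_geometric_of_lt_one (by positivity) (inv_lt_one_of_one_lt₀ hμ)).mul_left _
  refine Summable.of_norm_bounded hgeo fun n => ?_
  have hL : 0 < ‖Lam x c n‖ := norm_pos_iff.mpr (Lam_ne x c hd h hC hμ hg n)
  have hN1 : 0 < N2 (qo x c (n + 1)) := N2_pos (qo_ne x c h _)
  have h1 : ‖cr (hF b (qo x c n)) (hF x (qo x c n))‖ ≤ 2 * (K / a) * N2 (qo x c (n + 1)) := by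
    have h2 := norm_cr_le (hF b (qo x c n)) (hF x (qo x c n))
    have h3 := hup (qo x c n)
    have h4 := hlow (qo x c n)
    have h5 : ‖hF b (qo x c n)‖ ≤ K / a * ‖hF x (qo x c n)‖ := by
      refine h3.trans ?_
      rw [div_mul_eq_mul_div, le_div_iff₀ ha]
      nlinarith [mul_le_mul_of_nonneg_left h4 hK]
    have h6 : ‖hF x (qo x c n)‖ ^ 2 ≤ N2 (qo x c (n + 1)) := by
      rw [qo_succ]
      exact norm_sq_le_N2 _
    have h7 : ‖hF b (qo x c n)‖ * ‖hF x (qo x c n)‖ ≤ K / a * N2 (qo x c (n + 1)) := by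
      have h8 := mul_le_mul_of_nonneg_right h5 (norm_nonneg (hF x (qo x c n)))
      have h9 := mul_le_mul_of_nonneg_left h6 (by positivity : 0 ≤ K / a)
      have h10 : K / a * ‖hF x (qo x c n)‖ * ‖hF x (qo x c n)‖ =
          K / a * ‖hF x (qo x c n)‖ ^ 2 := by ring
      linarith
    linarith
  have h2 := sdn_Lam x c hd h n
  have h3 := hg n
  have hμn : 0 < μ ^ n := by positivity
  unfold hst
  rw [norm_div, div_le_iff₀ hL]
  refine h1.trans ?_
  have h4 : C * μ ^ n * N2 (qo x c (n + 1)) ≤ ‖Lam x c n‖ * N2 (qo x c 1) := by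
    rw [← h2]
    exact mul_le_mul_of_nonneg_right h3 hN1.le
  have h5 : 2 * (K / a) * N2 (qo x c 1) / C * (μ⁻¹) ^ n * ‖Lam x c n‖ =
      2 * (K / a) / (C * μ ^ n) * (‖Lam x c n‖ * N2 (qo x c 1)) := by
    rw [inv_pow]
    field_simp
  rw [h5]
  have h6 : 2 * (K / a) * N2 (qo x c (n + 1)) =
      2 * (K / a) / (C * μ ^ n) * (C * μ ^ n * N2 (qo x c (n + 1))) := by
    field_simp
  rw [h6]
  exact mul_le_mul_of_nonneg_left h4 (by positivity)

end orbit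

theorem t_FUNC (hDER : S_DER) : S_FUNC := by
  intro d k x₀ c hd hND hCE hwr
  have hc0 : ((c, 1) : ℂ × ℂ) ≠ 0 := by
    intro h0
    have := congrArg Prod.snd h0
    simp at this
  obtain ⟨C, hC, μ, hμ, hg⟩ := hCE (c, 1) hc0 hwr
  have hd0 : (d : ℂ) ≠ 0 := by
    exact_mod_cast (by omega : d ≠ 0)
  refine ⟨fun b => summable_hst x₀ c hd hND hC hμ hg b, sg (tau (qo x₀ c 1)) / T x₀ c 0 ^ 2,
    div_ne_zero (sg_ne _) (pow_ne_zero _ (T_ne x₀ c hND 0)), C / 2, by positivity, μ, hμ, ?_⟩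
  intro X cc hX hX0 hcc hcc0 f v z hf hv hz
  -- the derivatives
  have hDD : ∀ n, DD f z n = sg (tau (qo x₀ c 1)) * sg (tau (qo x₀ c (n + 1))) *
      (T x₀ c 0 ^ 2 / T x₀ c n ^ 2) * Lam x₀ c n := by
    intro n
    induction n with
    | zero =>
      have hT := T_ne x₀ c hND 0
      unfold DD Lam
      rw [Finset.prod_range_zero, Finset.prod_range_zero, zero_add, sg_mul,
        div_self (pow_ne_zero _ hT)]
      ring
    | succ n ih =>
      have h1 : DD f z (n + 1) = DD f z n * deriv (f n 0) (z n) := by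
        unfold DD
        rw [Finset.prod_range_succ]
      have h2 : deriv (f n 0) (z n) =
          deriv (GG x₀ (tau (qo x₀ c (n + 1))) (tau (qo x₀ c (n + 2)))) (zc (qo x₀ c (n + 1))) := by
        rw [hf, hz]
        simp only [hX0]
      rw [h1, h2, ih, deriv_orbit x₀ c hDER hd hND n, Lam_succ]
      have hT := T_ne x₀ c hND n
      have hT1 := T_ne x₀ c hND (n + 1)
      have hs := sg_mul (tau (qo x₀ c (n + 1)))
      generalize sg (tau (qo x₀ c (n + 1))) = σ at *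
      generalize sg (tau (qo x₀ c 1)) = σ₀ at *
      have h3 : n + 1 + 1 = n + 2 := rfl
      rw [h3]
      generalize sg (tau (qo x₀ c (n + 2))) = σ₁ at *
      generalize wr x₀ (qo x₀ c (n + 1)) = W at *
      have h4 : σ₀ * σ * (T x₀ c 0 ^ 2 / T x₀ c n ^ 2) * Lam x₀ c n *
          (σ * σ₁ * (T x₀ c n ^ 2 / T x₀ c (n + 1) ^ 2) * (W / (d : ℂ))) =
          (σ * σ) * (σ₀ * σ₁ * (T x₀ c 0 ^ 2 / T x₀ c (n + 1) ^ 2) *
            (Lam x₀ c n * (W / (d : ℂ)))) := by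
        field_simp
      rw [h4, hs, one_mul]
  have hLam : ∀ n, Lam x₀ c n ≠ 0 := Lam_ne x₀ c hd hND hC hμ hg
  refine ⟨fun n => ?_, fun b => ?_⟩
  · -- growth
    have h1 := sdn_Lam x₀ c hd hND n
    have hT0 := T_ne x₀ c hND 0
    have hTn := T_ne x₀ c hND n
    have hT0' : 0 < ‖T x₀ c 0‖ ^ 2 := by positivity
    have hTn' : 0 < ‖T x₀ c n‖ ^ 2 := by positivity
    have h2 : N2 (qo x₀ c 1) ≤ 2 * ‖T x₀ c 0‖ ^ 2 := N2_le (qo x₀ c 1)
    have h3 : ‖T x₀ c n‖ ^ 2 ≤ N2 (qo x₀ c (n + 1)) := le_N2 _ _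
    have h4 : ‖DD f z n‖ = ‖T x₀ c 0‖ ^ 2 / ‖T x₀ c n‖ ^ 2 * ‖Lam x₀ c n‖ := by
      rw [hDD n, norm_mul, norm_mul, norm_mul, norm_sg, norm_sg, norm_div, norm_pow, norm_pow]
      ring
    rw [h4]
    have h5 : C * μ ^ n * ‖T x₀ c n‖ ^ 2 ≤ ‖Lam x₀ c n‖ * (2 * ‖T x₀ c 0‖ ^ 2) := by
      have h6 : C * μ ^ n * ‖T x₀ c n‖ ^ 2 ≤ sdn x₀ n (hF x₀ (c, 1)) * N2 (qo x₀ c (n + 1)) := by
        have hμ0 : 0 < μ := by linarith
        exact mul_le_mul (hg n) h3 hTn'.le ((by positivity : 0 ≤ C * μ ^ n).trans (hg n))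
      rw [h1] at h6
      exact h6.trans (mul_le_mul_of_nonneg_left h2 (norm_nonneg _))
    rw [div_mul_eq_mul_div (‖T x₀ c 0‖ ^ 2), le_div_iff₀ hTn']
    linarith
  · -- the functional
    have hS := (summable_hst x₀ c hd hND hC hμ hg (fderiv ℂ X 0 b)).hasSum.tendsto_sum_nat
    have hS1 := (tendsto_add_atTop_iff_nat 1).mpr hS
    have hS2 := hS1.const_mul (sg (tau (qo x₀ c 1)) / T x₀ c 0 ^ 2)
    have hq0 : qo x₀ c 0 = (c, 1) := rfl
    have hv' : fderiv ℂ v 0 b =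
        sg (tau (qo x₀ c 1)) / T x₀ c 0 ^ 2 * hst x₀ c (fderiv ℂ X 0 b) 0 := by
      have hne : dn (tau (qo x₀ c 1)) (hF (X 0) (cc 0, 1)) ≠ 0 := by
        rw [hX0, hcc0]
        exact T_ne x₀ c hND 0
      have h1 := ((hDER d k true (tau (qo x₀ c 1)) 0 hd).2 X cc b hX hcc).2 hne
        (by rw [hX0, hcc0]; exact hwr)
      rw [hv, h1, hX0, hcc0]
      unfold hst
      have h2 : Lam x₀ c 0 = 1 := by simp [Lam]
      have h3 : dn (tau (qo x₀ c 1)) (hF x₀ (c, 1)) = T x₀ c 0 := rfl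
      rw [h2, h3, hq0]
      ring
    have hf' : ∀ j, fderiv ℂ (fun s => f j s (z j)) 0 b / DD f z (j + 1) =
        sg (tau (qo x₀ c 1)) / T x₀ c 0 ^ 2 * hst x₀ c (fderiv ℂ X 0 b) (j + 1) := by
      intro j
      have hne : dn (tau (qo x₀ c (j + 2)))
          (hF (X 0) (iot (tau (qo x₀ c (j + 1))) (zc (qo x₀ c (j + 1))))) ≠ 0 := by
        rw [hX0]
        exact dn_hF_ne x₀ c hND j
      have h1 := ((hDER d k (tau (qo x₀ c (j + 1))) (tau (qo x₀ c (j + 2)))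
        (zc (qo x₀ c (j + 1))) hd).2 X cc b hX hcc).1 hne
      have h2 : fderiv ℂ (fun s => f j s (z j)) 0 b = fderiv ℂ (fun s => GG (X s)
          (tau (qo x₀ c (j + 1))) (tau (qo x₀ c (j + 2))) (zc (qo x₀ c (j + 1)))) 0 b := by
        rw [hf, hz]
      rw [h2, h1, hDD (j + 1), hX0]
      have hT := T_ne x₀ c hND j
      have hT0 := T_ne x₀ c hND 0
      have hT1 := T_ne x₀ c hND (j + 1)
      have hTs := T_succ x₀ c hND j
      have hL := hLam (j + 1)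
      have hh : hst x₀ c (fderiv ℂ X 0 b) (j + 1) = (T x₀ c j ^ d) ^ 2 *
          cr (hF (fderiv ℂ X 0 b) (iot (tau (qo x₀ c (j + 1))) (zc (qo x₀ c (j + 1)))))
            (hF x₀ (iot (tau (qo x₀ c (j + 1))) (zc (qo x₀ c (j + 1))))) / Lam x₀ c (j + 1) := by
        unfold hst
        have h5 : hF (fderiv ℂ X 0 b) (qo x₀ c (j + 1)) = T x₀ c j ^ d •
            hF (fderiv ℂ X 0 b) (iot (tau (qo x₀ c (j + 1))) (zc (qo x₀ c (j + 1)))) := by
          rw [← hF_smul, ← qo_eq x₀ c hND j]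
        have h6 : hF x₀ (qo x₀ c (j + 1)) = T x₀ c j ^ d •
            hF x₀ (iot (tau (qo x₀ c (j + 1))) (zc (qo x₀ c (j + 1)))) := by
          rw [← hF_smul, ← qo_eq x₀ c hND j]
        rw [h5, h6, cr_smul_left, cr_smul_right]
        ring
      rw [hh]
      have hD0 := dn_hF_ne x₀ c hND j
      have h7 : j + 1 + 1 = j + 2 := rfl
      rw [h7]
      rw [hTs] at hT1 ⊢
      have hs := sg_mul (tau (qo x₀ c 1))
      have hs0 := sg_ne (tau (qo x₀ c 1))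
      have hs1 := sg_ne (tau (qo x₀ c (j + 2)))
      generalize cr (hF (fderiv ℂ X 0 b) (iot (tau (qo x₀ c (j + 1))) (zc (qo x₀ c (j + 1)))))
            (hF x₀ (iot (tau (qo x₀ c (j + 1))) (zc (qo x₀ c (j + 1))))) = Z at *
      generalize dn (tau (qo x₀ c (j + 2)))
        (hF x₀ (iot (tau (qo x₀ c (j + 1))) (zc (qo x₀ c (j + 1))))) = D at *
      generalize sg (tau (qo x₀ c 1)) = σ₀ at *
      generalize sg (tau (qo x₀ c (j + 2))) = σ₁ at *
      generalize Lam x₀ c (j + 1) = Λ at *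
      have hTd : T x₀ c j ^ d ≠ 0 := pow_ne_zero _ hT
      generalize T x₀ c j ^ d = R at *
      generalize T x₀ c 0 = T₀ at *
      have h8 : σ₁ * Z / D ^ 2 / (σ₀ * σ₁ * (T₀ ^ 2 / (R * D) ^ 2) * Λ) =
          (1 / σ₀) / T₀ ^ 2 * (R ^ 2 * Z / Λ) := by
        field_simp
      rw [h8]
      have h9 : 1 / σ₀ = σ₀ := by
        rw [div_eq_iff hs0, hs]
      rw [h9]
    have hfin : (fun n : ℕ => fderiv ℂ v 0 b +
        ∑ j ∈ Finset.range n, fderiv ℂ (fun s => f j s (z j)) 0 b / DD f z (j + 1)) =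
        fun n : ℕ => sg (tau (qo x₀ c 1)) / T x₀ c 0 ^ 2 *
          ∑ i ∈ Finset.range (n + 1), hst x₀ c (fderiv ℂ X 0 b) i := by
      funext n
      rw [Finset.sum_range_succ', mul_add, Finset.mul_sum, hv', add_comm]
      refine congrArg₂ (· + ·) (Finset.sum_congr rfl fun j _ => hf' j) rfl
    rw [hfin]
    exact hS2

end Pool.Agent.H729.HY211
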